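import Pool.Agent.KS6_47.SCT.Notions

set_option autoImplicit false

/-!
# Basic boxes of the Hilbert cube (part of MP_f8852a_lc)
-/

open Set Topology

namespace Pool.Agent.KS6_47.SCT

theorem isOpen_box (v : BoxCode) : IsOpen (box v) := by
  have h : box v = ⋂ n ∈ Finset.range v.length,
      {y : HilbertCube | lo v n < (y n : ℝ) ∧ (y n : ℝ) < hi v n} := by
    ext y
    simp [box]
  rw [h]
  apply isOpen_biInter_finset
  intro n _
  have hc : Continuous fun y : HilbertCube => (y n : ℝ) :=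
    continuous_subtype_val.comp (continuous_apply n)
  exact (isOpen_lt continuous_const hc).inter (isOpen_lt hc continuous_const)

theorem hi_le_lo_iff {v w : BoxCode} {n : ℕ} : hi v n ≤ lo w n ↔
    (v.getD n (0, 0, 0)).2.1 * ((w.getD n (0, 0, 0)).2.2 + 1) ≤
      (w.getD n (0, 0, 0)).1 * ((v.getD n (0, 0, 0)).2.2 + 1) := by
  unfold hi lo
  rw [sub_le_sub_iff_right, div_le_div_iff₀ (by positivity) (by positivity)]
  exact_mod_cast Iff.rfl

theorem FD_symm {v w : BoxCode} (h : FD v w) : FD w v := by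
  obtain ⟨n, h1, h2, h3⟩ := h
  exact ⟨n, h2, h1, h3.symm⟩

theorem FD_disjoint {v w : BoxCode} (h : FD v w) : Disjoint (box v) (box w) := by
  rw [Set.disjoint_left]
  intro z hz hz'
  obtain ⟨n, h1, h2, h3⟩ := h
  obtain ⟨a1, a2⟩ := hz n h1
  obtain ⟨b1, b2⟩ := hz' n h2
  rcases h3 with h3 | h3
  · have := hi_le_lo_iff.2 h3
    linarith
  · have := hi_le_lo_iff.2 h3
    linarith

theorem Fine.mono {M N : ℕ} (h : M ≤ N) {v : BoxCode} (hv : Fine N v) : Fine M v := by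
  refine ⟨h.trans hv.1, fun n hn => (hv.2 n (lt_of_lt_of_le hn h)).trans ?_⟩
  have hMN : (M : ℝ) ≤ N := by exact_mod_cast h
  exact one_div_le_one_div_of_le (by positivity) (by linarith)

/-- fine boxes meeting disjoint compact sets are formally disjoint -/
theorem sep {K L : Set HilbertCube} (hK : IsCompact K) (hL : IsCompact L) (hd : Disjoint K L) :
    ∃ N : ℕ, ∀ v w : BoxCode, Fine N v → Fine N w → (box v ∩ K).Nonempty → (box w ∩ L).Nonempty →
      FD v w := by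
  set U : ℕ → Set (HilbertCube × HilbertCube) := fun N =>
    {p | ∃ n < N, 2 / ((N : ℝ) + 1) < |(p.1 n : ℝ) - (p.2 n : ℝ)|} with hU
  have hUo : ∀ N, IsOpen (U N) := by
    intro N
    have h : U N = ⋃ n ∈ Finset.range N,
        {p : HilbertCube × HilbertCube | 2 / ((N : ℝ) + 1) < |(p.1 n : ℝ) - (p.2 n : ℝ)|} := by
      ext p
      simp [hU]
    rw [h]
    refine isOpen_biUnion fun n _ => isOpen_lt continuous_const ?_
    have h1 : Continuous fun p : HilbertCube × HilbertCube => (p.1 n : ℝ) :=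
      continuous_subtype_val.comp ((continuous_apply n).comp continuous_fst)
    have h2 : Continuous fun p : HilbertCube × HilbertCube => (p.2 n : ℝ) :=
      continuous_subtype_val.comp ((continuous_apply n).comp continuous_snd)
    exact (h1.sub h2).abs
  have hmono : Monotone U := by
    intro M N h p hp
    obtain ⟨n, hn, hlt⟩ := hp
    refine ⟨n, lt_of_lt_of_le hn h, lt_of_le_of_lt ?_ hlt⟩
    have hMN : (M : ℝ) ≤ N := by exact_mod_cast h
    exact div_le_div_of_nonneg_left (by norm_num) (by positivity) (by linarith)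
  have hcov : K ×ˢ L ⊆ ⋃ N, U N := by
    rintro ⟨x, y⟩ ⟨hx, hy⟩
    have hne : x ≠ y := by
      rintro rfl
      exact (Set.disjoint_left.1 hd) hx hy
    obtain ⟨n, hn⟩ := Function.ne_iff.1 hne
    have hpos : 0 < |(x n : ℝ) - (y n : ℝ)| := by
      rw [abs_pos, sub_ne_zero]
      exact fun h => hn (Subtype.ext h)
    obtain ⟨M, hM⟩ := exists_nat_gt (2 / |(x n : ℝ) - (y n : ℝ)|)
    refine Set.mem_iUnion.2 ⟨max M (n + 1), n, lt_of_lt_of_le (Nat.lt_succ_self n) (le_max_right _ _), ?_⟩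
    have h1 : (M : ℝ) ≤ ((max M (n + 1) : ℕ) : ℝ) := by exact_mod_cast le_max_left _ _
    rw [div_lt_iff₀ hpos] at hM
    rw [div_lt_iff₀ (by positivity)]
    show 2 < |(x n : ℝ) - (y n : ℝ)| * (((max M (n + 1) : ℕ) : ℝ) + 1)
    nlinarith
  obtain ⟨N, hN⟩ := (hK.prod hL).elim_directed_cover U hUo hcov hmono.directed_le
  refine ⟨N, fun v w hv hw ⟨x, hxv, hxK⟩ ⟨y, hyw, hyL⟩ => ?_⟩
  obtain ⟨n, hn, hlt⟩ := hN (show (x, y) ∈ K ×ˢ L from ⟨hxK, hyL⟩)
  have hnv : n < v.length := lt_of_lt_of_le hn hv.1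
  have hnw : n < w.length := lt_of_lt_of_le hn hw.1
  obtain ⟨a1, a2⟩ := hxv n hnv
  obtain ⟨b1, b2⟩ := hyw n hnw
  have c1 := hv.2 n hn
  have c2 := hw.2 n hn
  have e : 2 / ((N : ℝ) + 1) = 1 / ((N : ℝ) + 1) + 1 / ((N : ℝ) + 1) := by ring
  refine ⟨n, hnv, hnw, ?_⟩
  change 2 / ((N : ℝ) + 1) < |(x n : ℝ) - (y n : ℝ)| at hlt
  rcases lt_abs.1 hlt with h | h
  · right
    exact hi_le_lo_iff.1 (by linarith)
  · left
    exact hi_le_lo_iff.1 (by linarith)

/-- the code of a fine box around a point -/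
noncomputable def boxAt (N : ℕ) (x : HilbertCube) : BoxCode :=
  (List.range N).map fun n =>
    (⌊((x n : ℝ) + 1) * (4 * ((N : ℝ) + 1))⌋₊ - 1, ⌊((x n : ℝ) + 1) * (4 * ((N : ℝ) + 1))⌋₊ + 1,
      4 * N + 3)

theorem length_boxAt (N : ℕ) (x : HilbertCube) : (boxAt N x).length = N := by
  simp [boxAt]

theorem boxAt_getD (N : ℕ) (x : HilbertCube) {n : ℕ} (hn : n < N) :
    (boxAt N x).getD n (0, 0, 0) =
      (⌊((x n : ℝ) + 1) * (4 * ((N : ℝ) + 1))⌋₊ - 1,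
        ⌊((x n : ℝ) + 1) * (4 * ((N : ℝ) + 1))⌋₊ + 1, 4 * N + 3) := by
  have h : n < (boxAt N x).length := by rw [length_boxAt]; exact hn
  rw [List.getD_eq_getElem _ _ h]
  simp [boxAt]

theorem lo_hi_boxAt (N : ℕ) (x : HilbertCube) {n : ℕ} (hn : n < N) :
    lo (boxAt N x) n < (x n : ℝ) ∧ (x n : ℝ) < hi (boxAt N x) n ∧
      hi (boxAt N x) n - lo (boxAt N x) n ≤ 1 / ((N : ℝ) + 1) := by
  set s : ℝ := ((x n : ℝ) + 1) * (4 * ((N : ℝ) + 1)) with hs
  have hx0 : 0 ≤ (x n : ℝ) := (x n).2.1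
  have hN : (0 : ℝ) ≤ N := Nat.cast_nonneg N
  have hs1 : 1 ≤ s := by rw [hs]; nlinarith
  have hfl : 1 ≤ ⌊s⌋₊ := Nat.le_floor (by exact_mod_cast hs1)
  have hle : (⌊s⌋₊ : ℝ) ≤ s := Nat.floor_le (by linarith)
  have hlt : s < ⌊s⌋₊ + 1 := Nat.lt_floor_add_one s
  have hq : (((4 * N + 3 : ℕ) : ℝ) + 1) = 4 * ((N : ℝ) + 1) := by push_cast; ring
  have hlo : lo (boxAt N x) n = ((⌊s⌋₊ : ℝ) - 1) / (4 * ((N : ℝ) + 1)) - 1 := by
    unfold lo
    rw [boxAt_getD N x hn]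
    simp only
    rw [hq, Nat.cast_sub hfl, Nat.cast_one]
  have hhi : hi (boxAt N x) n = ((⌊s⌋₊ : ℝ) + 1) / (4 * ((N : ℝ) + 1)) - 1 := by
    unfold hi
    rw [boxAt_getD N x hn]
    simp only
    rw [hq, Nat.cast_add, Nat.cast_one]
  rw [hlo, hhi]
  have hp : (0 : ℝ) < 4 * ((N : ℝ) + 1) := by positivity
  refine ⟨?_, ?_, ?_⟩
  · rw [sub_lt_iff_lt_add, div_lt_iff₀ hp]
    linarith
  · rw [lt_sub_iff_add_lt, lt_div_iff₀ hp]
    linarith
  · have e : ((⌊s⌋₊ : ℝ) + 1) / (4 * ((N : ℝ) + 1)) - 1 - (((⌊s⌋₊ : ℝ) - 1) / (4 * ((N : ℝ) + 1)) - 1)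
        = (1 / 2) * (1 / ((N : ℝ) + 1)) := by
      field_simp
      ring
    rw [e]
    have : 0 < 1 / ((N : ℝ) + 1) := by positivity
    linarith

theorem mem_boxAt (N : ℕ) (x : HilbertCube) : x ∈ box (boxAt N x) := by
  intro n hn
  rw [length_boxAt] at hn
  exact ⟨(lo_hi_boxAt N x hn).1, (lo_hi_boxAt N x hn).2.1⟩

theorem fine_boxAt (N : ℕ) (x : HilbertCube) : Fine N (boxAt N x) :=
  ⟨(length_boxAt N x).ge, fun _ hn => (lo_hi_boxAt N x hn).2.2⟩

/-- a compact set is covered by finitely many fine boxes which meet it -/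
theorem cover {K : Set HilbertCube} (hK : IsCompact K) (N : ℕ) :
    ∃ L : List BoxCode, (∀ y ∈ K, ∃ v ∈ L, y ∈ box v) ∧
      ∀ v ∈ L, Fine N v ∧ (box v ∩ K).Nonempty := by
  obtain ⟨t, ht, htK⟩ := hK.elim_nhds_subcover (fun x => box (boxAt N x))
    (fun x _ => (isOpen_box _).mem_nhds (mem_boxAt N x))
  refine ⟨t.toList.map (boxAt N), ?_, ?_⟩
  · intro y hy
    obtain ⟨x, hx, hyx⟩ := Set.mem_iUnion₂.1 (htK hy)
    exact ⟨boxAt N x, List.mem_map.2 ⟨x, Finset.mem_toList.2 hx, rfl⟩, hyx⟩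
  · intro v hv
    obtain ⟨x, hx, rfl⟩ := List.mem_map.1 hv
    exact ⟨fine_boxAt N x, x, mem_boxAt N x, ht x (Finset.mem_toList.1 hx)⟩

end Pool.Agent.KS6_47.SCT
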