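import Pool.Agent.KS6_47.SCT.Defs

set_option autoImplicit false

/-! Relative enumerability under primitive recursive operations (from the library, `R749.SCT.Comp`). -/

open Set Topology Encodable

namespace Pool.Agent.KS6_47.SCT

/-- closure of `O`-c.e. sets under primitive recursive preimages, primitive recursive side
conditions and projection -/
theorem CEIn.of_rel {O : Set ℕ} {α β γ : Type} [Primcodable α] [Primcodable β] [Primcodable γ]
    {U : Set β} (hU : CEIn O U) {R : α × γ → Prop} (hR : PrimrecPred R) {F : α × γ → β}
    (hF : Primrec F) : CEIn O {a | ∃ c, R (a, c) ∧ F (a, c) ∈ U} := by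
  classical
  obtain ⟨f, hf, hfU⟩ := hU
  let G : ℕ × Option β → Option α := fun p =>
    (decode (α := α × γ) (Nat.unpair p.1).1).bind fun q =>
      if R q ∧ p.2 = some (F q) then some q.1 else none
  have hG : Primrec G := by
    have h1 : Primrec (fun p : ℕ × Option β => decode (α := α × γ) (Nat.unpair p.1).1) :=
      Primrec.decode.comp (Primrec.fst.comp (Primrec.unpair.comp Primrec.fst))
    have h2 : Primrec₂ (fun (p : ℕ × Option β) (q : α × γ) =>
        if R q ∧ p.2 = some (F q) then some q.1 else none) := by
      refine Primrec.ite ?_ ?_ ?_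
      · refine PrimrecPred.and (hR.comp Primrec.snd) ?_
        exact Primrec.eq.comp (Primrec.snd.comp Primrec.fst)
          (Primrec.option_some.comp (hF.comp Primrec.snd))
      · exact Primrec.option_some.comp (Primrec.fst.comp Primrec.snd)
      · exact Primrec.const none
    exact Primrec.option_bind h1 h2
  refine ⟨fun n => G (n, f (Nat.unpair n).2), ?_, ?_⟩
  · have hf' : Nat.RecursiveIn {oracle O} (fun n => Part.some (encode (f n))) := by
      refine Nat.RecursiveIn.of_eq hf ?_
      intro n
      simp
    have h1 : Nat.RecursiveIn {oracle O} (fun n => Part.some (encode (f (Nat.unpair n).2))) := by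
      refine Nat.RecursiveIn.of_eq (Nat.RecursiveIn.comp hf' Nat.RecursiveIn.right) ?_
      intro n
      simp
    have h0 : Nat.RecursiveIn {oracle O} (fun n => Part.some n) := by
      refine Nat.RecursiveIn.of_eq
        (Nat.RecursiveIn.pair Nat.RecursiveIn.left Nat.RecursiveIn.right) ?_
      intro n
      simp [Seq.seq]
    have h2 : Nat.RecursiveIn {oracle O}
        (fun n => Part.some (Nat.pair n (encode (f (Nat.unpair n).2)))) := by
      refine Nat.RecursiveIn.of_eq (Nat.RecursiveIn.pair h0 h1) ?_
      intro n
      simp [Seq.seq]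
    have hG' := hG.computableIn (O := {oracle O})
    refine Nat.RecursiveIn.of_eq (Nat.RecursiveIn.comp hG' h2) ?_
    intro n
    simp
  · intro a
    show (∃ c, R (a, c) ∧ F (a, c) ∈ U) ↔ _
    constructor
    · rintro ⟨c, hRc, hFc⟩
      obtain ⟨m, hm⟩ := (hfU _).1 hFc
      refine ⟨Nat.pair (encode (a, c)) m, ?_⟩
      show (decode (α := α × γ) (Nat.unpair (Nat.pair (encode (a, c)) m)).1).bind _ = _
      simp only [Nat.unpair_pair, encodek, Option.bind_some]
      rw [if_pos ⟨hRc, by simpa using hm⟩]
    · rintro ⟨n, hn⟩
      change (decode (α := α × γ) (Nat.unpair n).1).bind _ = _ at hn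
      rw [Option.bind_eq_some_iff] at hn
      obtain ⟨q, hq, hq2⟩ := hn
      split_ifs at hq2 with hcond
      obtain ⟨hRq, hfq⟩ := hcond
      have hqa : q.1 = a := by simpa using hq2
      refine ⟨q.2, ?_, ?_⟩
      · rw [← hqa]; exact hRq
      · rw [← hqa]
        exact (hfU _).2 ⟨_, hfq⟩

end Pool.Agent.KS6_47.SCT
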