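import Mathlib

set_option autoImplicit false

/-!
# Definitions: strong computable type

Copied from the library (`R_seed8`, `R749.SCT.Defs` and `R749.IC.Defs`).
-/

open Set Topology

namespace Pool.Agent.KS6_47.SCT

/-- The Hilbert cube `[0,1]^ℕ` (with the product topology). -/
abbrev HilbertCube : Type := ℕ → unitInterval

/-- The set `O ⊆ ℕ` as an oracle: its characteristic function. -/
noncomputable def oracle (O : Set ℕ) : ℕ →. ℕ := by
  classical
  exact fun n => Part.some (if n ∈ O then 1 else 0)

/-- `A` is `O`-computably enumerable: it is listed (with possible gaps) by a function computable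
with oracle `O`. -/
def CEIn (O : Set ℕ) {α : Type} [Primcodable α] (A : Set α) : Prop :=
  ∃ f : ℕ → Option α, ComputableIn {oracle O} f ∧ ∀ a, a ∈ A ↔ ∃ n, f n = some a

/-- Codes of basic open sets: a finite list whose `n`-th entry `(a, b, q)` stands for the open
interval with the rational end points `a/(q+1) - 1` and `b/(q+1) - 1` in the coordinate `n`. -/
abbrev BoxCode : Type := List (ℕ × ℕ × ℕ)

/-- left end point of the interval in coordinate `n` -/
noncomputable def lo (v : BoxCode) (n : ℕ) : ℝ :=
  ((v.getD n (0, 0, 0)).1 : ℝ) / (((v.getD n (0, 0, 0)).2.2 : ℝ) + 1) - 1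

/-- right end point of the interval in coordinate `n` -/
noncomputable def hi (v : BoxCode) (n : ℕ) : ℝ :=
  ((v.getD n (0, 0, 0)).2.1 : ℝ) / (((v.getD n (0, 0, 0)).2.2 : ℝ) + 1) - 1

/-- The basic open set with code `v`: the coordinates `n < v.length` lie in the given open
intervals, the other coordinates are unrestricted. -/
def box (v : BoxCode) : Set HilbertCube :=
  {y | ∀ n < v.length, lo v n < (y n : ℝ) ∧ (y n : ℝ) < hi v n}

/-- The set of finite lists of basic open sets whose union covers `K` is c.e. relative to `O`. -/
def SemicomputableIn (O : Set ℕ) (K : Set HilbertCube) : Prop :=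
  CEIn O {L : List BoxCode | ∀ y ∈ K, ∃ v ∈ L, y ∈ box v}

/-- Semicomputable and the set of basic open sets that meet `K` is c.e. relative to `O`. -/
def ComputableRel (O : Set ℕ) (K : Set HilbertCube) : Prop :=
  SemicomputableIn O K ∧ CEIn O {v : BoxCode | ∃ y ∈ K, y ∈ box v}

/-- `X` has strong computable type: for every oracle `O` and every copy `Y` of `X` in the Hilbert
cube, if `Y` is semicomputable relative to `O` then it is computable relative to `O`. -/
def StrongComputableType (X : Type) [TopologicalSpace X] : Prop :=
  ∀ (O : Set ℕ) (Y : Set HilbertCube), Nonempty (X ≃ₜ Y) → SemicomputableIn O Y → ComputableRel O Y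

end Pool.Agent.KS6_47.SCT
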