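import Pool.Agent.KS6_47.SCT.Notions
import Pool.Agent.KS6_47.SCT.Box

set_option autoImplicit false

/-!
# Labels along a path that almost returns to its starting point
-/

open Set Topology Filter

namespace Pool.Agent.KS6_47.SCT

/-- the integer in the difference of two positions -/
theorem int_zero {x : ℝ} {M M' : ℤ} {a b : ℝ} (h1 : a / 3 - 1 / 12 < x - M)
    (h2 : x - M < (a + 1) / 3 + 1 / 12) (h3 : b / 3 - 1 / 12 < x - M')
    (h4 : x - M' < (b + 1) / 3 + 1 / 12) :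
    (a - b) / 3 - 1 / 2 < - ((M - M' : ℤ) : ℝ) ∧ - ((M - M' : ℤ) : ℝ) < (a - b) / 3 + 1 / 2 := by
  push_cast
  constructor <;> linarith

theorem step {ord : ℕ → ℕ} {e0 e : ℕ × ℕ × ℕ} (hc : Compat ord e0 e) (ha0 : e0.2.1 < 3)
    (ha : e.2.1 < 3) {x : ℝ} {M0 M1 : ℤ}
    (h2 : (e0.2.1 : ℝ) / 3 - 1 / 12 < x - M0) (h3 : x - M0 < ((e0.2.1 : ℝ) + 1) / 3 + 1 / 12)
    (h4 : (e.2.1 : ℝ) / 3 - 1 / 12 < x - M1) (h5 : x - M1 < ((e.2.1 : ℝ) + 1) / 3 + 1 / 12) :
    e0.1 = e.1 ∧ ((e.2.2 : ℤ) - M1) ≡ ((e0.2.2 : ℤ) - M0) [ZMOD (ord e0.1 : ℤ)] := by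
  obtain ⟨b1, b2⟩ := int_zero h2 h3 h4 h5
  obtain ⟨hi, hc⟩ := hc
  refine ⟨hi, ?_⟩
  set r := ord e0.1 with hr
  generalize e0.2.2 = s0 at *
  generalize e.2.2 = s at *
  generalize e0.2.1 = a0 at *
  generalize e.2.1 = a at *
  rcases hc with ⟨k1, k2, k3⟩ | ⟨k1, k2, k3⟩ | ⟨k1, k2, k3⟩
  · subst k1 k2
    have e : M1 = M0 + 1 := by
      have c1 : (1 : ℝ) / 6 < ((M1 - M0 : ℤ) : ℝ) := by
        push_cast at b1 b2 ⊢; linarith
      have c2 : ((M1 - M0 : ℤ) : ℝ) < 7 / 6 := by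
        push_cast at b1 b2 ⊢; linarith
      have c3 : 0 < M1 - M0 := by
        have : (0 : ℝ) < ((M1 - M0 : ℤ) : ℝ) := by linarith
        exact_mod_cast this
      have c4 : M1 - M0 < 2 := by
        have : ((M1 - M0 : ℤ) : ℝ) < 2 := by linarith
        exact_mod_cast this
      omega
    have k4 : (s : ℤ) ≡ s0 + 1 [ZMOD r] := by
      have : s ≡ s0 + 1 [MOD r] := k3
      have := (Int.natCast_modEq_iff).2 this
      push_cast at this
      exact this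
    have k5 : (s : ℤ) - M1 ≡ s0 + 1 - M1 [ZMOD r] := k4.sub_right _
    rw [e] at k5 ⊢
    have k6 : (s0 : ℤ) + 1 - (M0 + 1) = s0 - M0 := by ring
    rw [k6] at k5
    exact k5
  · subst k1 k2
    have e : M1 = M0 - 1 := by
      have c1 : ((M1 - M0 : ℤ) : ℝ) < -(1 : ℝ) / 6 := by
        push_cast at b1 b2 ⊢; linarith
      have c2 : -(7 : ℝ) / 6 < ((M1 - M0 : ℤ) : ℝ) := by
        push_cast at b1 b2 ⊢; linarith
      have c3 : M1 - M0 < 0 := by
        have : ((M1 - M0 : ℤ) : ℝ) < 0 := by linarith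
        exact_mod_cast this
      have c4 : -2 < M1 - M0 := by
        have : (-2 : ℝ) < ((M1 - M0 : ℤ) : ℝ) := by linarith
        exact_mod_cast this
      omega
    have k4 : (s0 : ℤ) ≡ s + 1 [ZMOD r] := by
      have : s0 ≡ s + 1 [MOD r] := k3
      have := (Int.natCast_modEq_iff).2 this
      push_cast at this
      exact this
    have k5 : (s0 : ℤ) - M0 ≡ s + 1 - M0 [ZMOD r] := k4.sub_right _
    rw [e]
    have k6 : (s : ℤ) + 1 - M0 = s - (M0 - 1) := by ring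
    rw [k6] at k5
    exact k5.symm
  · have e : M1 = M0 := by
      have d1 : ((a0 : ℝ) - a) ≤ 1 := by
        have : a0 ≤ a + 1 := by omega
        have : (a0 : ℝ) ≤ a + 1 := by exact_mod_cast this
        linarith
      have d2 : -1 ≤ ((a0 : ℝ) - a) := by
        have : a ≤ a0 + 1 := by omega
        have : (a : ℝ) ≤ a0 + 1 := by exact_mod_cast this
        linarith
      have c1 : ((M1 - M0 : ℤ) : ℝ) < 1 := by
        push_cast at b1 b2 ⊢; linarith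
      have c2 : -1 < ((M1 - M0 : ℤ) : ℝ) := by
        push_cast at b1 b2 ⊢; linarith
      have c3 : M1 - M0 < 1 := by exact_mod_cast c1
      have c4 : -1 < M1 - M0 := by exact_mod_cast c2
      omega
    have k4 : (s0 : ℤ) ≡ s [ZMOD r] := by
      have : s0 ≡ s [MOD r] := k3
      exact (Int.natCast_modEq_iff).2 this
    rw [e]
    exact (k4.sub_right M0).symm

/-- A path `y` with `θ (y t) = t`, which returns to its starting point at the times `M 0, M 1, …` in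
the limit. If the space is covered by labelled boxes, then the order of the root on the piece of the
starting point divides some `M k`. -/
theorem sound_path {X : Type} [TopologicalSpace X] (θ : X → Circ) (J : X → HilbertCube)
    (hJ : Continuous J) (N : ℕ → List BoxCode)
    (hN : ∀ a < 3, ∀ x, θ x ∉ Varc a → ∃ w ∈ N a, J x ∈ box w)
    {ord : ℕ → ℕ} (L : List ((ℕ × ℕ × ℕ) × BoxCode))
    (hL1 : ∀ e ∈ L, e.1.2.1 < 3 ∧ ∀ w ∈ N e.1.2.1, FD e.2 w)
    (hL2 : ∀ e ∈ L, ∀ f ∈ L, Compat ord e.1 f.1 ∨ FD e.2 f.2)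
    (hcov : ∀ x, ∃ e ∈ L, J x ∈ box e.2)
    (y : ℝ → X) (hy : Continuous y) (hθ : ∀ t, θ (y t) = (t : Circ)) (P : ℕ → ℕ)
    (hP : Tendsto (fun k => y (P k)) atTop (𝓝 (y 0))) :
    ∃ e ∈ L, ∃ k, ord e.1.1 ∣ P k := by
  choose E hEL hEJ using hcov
  have hyc : Continuous fun t => J (y t) := hJ.comp hy
  have hpos : ∀ t : ℝ, ∃ M : ℤ, (((E (y t)).1.2.1 : ℕ) : ℝ) / 3 - 1 / 12 < t - M ∧
      t - M < ((((E (y t)).1.2.1 : ℕ) : ℝ) + 1) / 3 + 1 / 12 := by
    intro t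
    have hlt := (hL1 _ (hEL (y t))).1
    have hV : θ (y t) ∈ Varc (E (y t)).1.2.1 := by
      by_contra hV
      obtain ⟨w, hw, hJw⟩ := hN _ hlt _ hV
      exact (disjoint_left.1 (FD_disjoint ((hL1 _ (hEL (y t))).2 w hw))) (hEJ (y t)) hJw
    obtain ⟨x, hx, hx1, hx2⟩ := hV
    rw [hθ t, QuotientAddGroup.eq, AddSubgroup.mem_zmultiples_iff] at hx
    obtain ⟨k, hk⟩ := hx
    rw [zsmul_eq_mul, mul_one] at hk
    have hxe : x = t - k := by linarith
    rw [hxe] at hx1 hx2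
    exact ⟨k, hx1, hx2⟩
  choose M hM1 hM2 using hpos
  set g : ℝ → ℕ × ℤ := fun t => ((E (y t)).1.1,
    ((((E (y t)).1.2.2 : ℕ) : ℤ) - M t) % (ord (E (y t)).1.1 : ℤ)) with hg
  have hloc : IsLocallyConstant g := by
    rw [IsLocallyConstant.iff_eventually_eq]
    intro t0
    have e1 : ∀ᶠ t in 𝓝 t0, J (y t) ∈ box (E (y t0)).2 :=
      hyc.continuousAt.eventually ((isOpen_box _).mem_nhds (hEJ (y t0)))
    have hc2 : Continuous fun t : ℝ => t - (M t0 : ℝ) := by fun_prop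
    have e2 : ∀ᶠ t in 𝓝 t0, (((E (y t0)).1.2.1 : ℕ) : ℝ) / 3 - 1 / 12 < t - M t0 :=
      hc2.continuousAt.eventually (lt_mem_nhds (hM1 t0))
    have e3 : ∀ᶠ t in 𝓝 t0, t - M t0 < ((((E (y t0)).1.2.1 : ℕ) : ℝ) + 1) / 3 + 1 / 12 :=
      hc2.continuousAt.eventually (gt_mem_nhds (hM2 t0))
    filter_upwards [e1, e2, e3] with t h1 h2 h3
    have hcomp : Compat ord (E (y t0)).1 (E (y t)).1 := by
      rcases hL2 _ (hEL (y t0)) _ (hEL (y t)) with h | h
      · exact h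
      · exact absurd (hEJ (y t)) (disjoint_left.1 (FD_disjoint h) h1)
    obtain ⟨s1, s2⟩ := step hcomp (hL1 _ (hEL (y t0))).1 (hL1 _ (hEL (y t))).1 h2 h3
      (hM1 t) (hM2 t)
    rw [hg]
    simp only
    rw [← s1]
    exact Prod.ext rfl s2
  have e1 : ∀ᶠ k in atTop, J (y (P k)) ∈ box (E (y 0)).2 :=
    (hJ.continuousAt.tendsto.comp hP).eventually ((isOpen_box _).mem_nhds (hEJ (y 0)))
  obtain ⟨k, hk⟩ := e1.exists
  refine ⟨E (y 0), hEL _, k, ?_⟩
  have hcomp : Compat ord (E (y 0)).1 (E (y (P k))).1 := by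
    rcases hL2 _ (hEL (y 0)) _ (hEL (y (P k))) with h | h
    · exact h
    · exact absurd (hEJ (y (P k))) (disjoint_left.1 (FD_disjoint h) hk)
  have u1 := hM1 0
  have u2 := hM2 0
  have v1 := hM1 (P k)
  have v2 := hM2 (P k)
  obtain ⟨s1, s2⟩ := step (x := (P k : ℝ)) (M0 := M 0 + P k) (M1 := M (P k)) hcomp
    (hL1 _ (hEL (y 0))).1 (hL1 _ (hEL (y (P k)))).1 (by push_cast; linarith)
    (by push_cast; linarith) v1 v2
  have hconst : g (P k) = g 0 := hloc.apply_eq_of_preconnectedSpace _ _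
  rw [hg] at hconst
  simp only [Prod.mk.injEq] at hconst
  obtain ⟨-, hc2⟩ := hconst
  rw [← s1] at hc2
  have h3 : (((E (y 0)).1.2.2 : ℕ) : ℤ) - M 0 ≡ ((E (y 0)).1.2.2 : ℕ) - (M 0 + P k)
      [ZMOD (ord (E (y 0)).1.1 : ℤ)] := by
    refine Int.ModEq.trans ?_ s2
    exact hc2.symm
  have h4 := h3.dvd
  have h5 : (((E (y 0)).1.2.2 : ℕ) : ℤ) - (M 0 + P k) - ((((E (y 0)).1.2.2 : ℕ) : ℤ) - M 0) =
      - (P k : ℤ) := by ring
  rw [h5, dvd_neg] at h4
  exact Int.natCast_dvd_natCast.1 h4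

end Pool.Agent.KS6_47.SCT
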