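import Pool.Agent.KS6_47.SCT.Notions

set_option autoImplicit false

/-!
# The space over a closed set `C` of the Cantor space: solenoids with self-describing bonding numbers
-/

open Set Topology Filter

namespace Pool.Agent.KS6_47.SCT

instance factOne : Fact ((0 : ℝ) < 1) := ⟨one_pos⟩

/-- code of the first `n` digits of `c` -/
def sc (n : ℕ) (c : ℕ → Bool) : ℕ := Encodable.encode (List.ofFn fun i : Fin n => c i)

theorem sc_eq_iff {m n : ℕ} {c d : ℕ → Bool} : sc m c = sc n d ↔ m = n ∧ ∀ k < n, c k = d k := by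
  unfold sc
  rw [Encodable.encode_inj]
  constructor
  · intro h
    have h1 : m = n := by
      have := congrArg List.length h
      simpa using this
    subst h1
    refine ⟨rfl, fun k hk => ?_⟩
    exact congrFun (List.ofFn_injective h) ⟨k, hk⟩
  · rintro ⟨rfl, h⟩
    congr 1
    funext i
    exact h i i.2

theorem continuous_sc (n : ℕ) : Continuous (sc n) := by
  have h : Continuous (fun c : ℕ → Bool => (fun i : Fin n => c i)) :=
    continuous_pi fun i => continuous_apply _
  exact (continuous_of_discreteTopology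
    (f := fun g : Fin n → Bool => (Encodable.encode (List.ofFn g) : ℕ))).comp h

theorem finite_sc (n : ℕ) (C : Set (ℕ → Bool)) : ((sc n) '' C).Finite := by
  refine (Set.finite_range (fun g : Fin n → Bool => (Encodable.encode (List.ofFn g) : ℕ))).subset ?_
  rintro _ ⟨c, _, rfl⟩
  exact ⟨fun i => c i, rfl⟩

/-- the list of the codes of level `n` of `C` -/
noncomputable def SL (C : Set (ℕ → Bool)) (n : ℕ) : List ℕ := (finite_sc n C).toFinset.toList

theorem mem_SL {C : Set (ℕ → Bool)} {n i : ℕ} : i ∈ SL C n ↔ ∃ c ∈ C, sc n c = i := by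
  simp [SL]

/-- the label of level `n` of `c` -/
noncomputable def ell (C : Set (ℕ → Bool)) (n : ℕ) (c : ℕ → Bool) : ℕ :=
  Encodable.encode (sc n c, SL C n)

/-- the bonding numbers -/
def fer (l : ℕ) : ℕ := 2 ^ (2 ^ l) + 1

theorem fer_pos (l : ℕ) : 0 < fer l := Nat.succ_pos _

theorem odd_fer (l : ℕ) : Odd (fer l) :=
  Even.add_one ((even_two).pow_of_ne_zero (by positivity))

theorem fer_coprime {k l : ℕ} (h : k ≠ l) : Nat.Coprime (fer k) (fer l) :=
  Nat.coprime_fermatNumber_fermatNumber h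

theorem three_le_fer (l : ℕ) : 3 ≤ fer l := by
  unfold fer
  have : 2 ^ 1 ≤ 2 ^ (2 ^ l) := Nat.pow_le_pow_right (by norm_num) Nat.one_le_two_pow
  omega

/-- products of the first bonding numbers -/
noncomputable def MM (C : Set (ℕ → Bool)) (k : ℕ) (c : ℕ → Bool) : ℕ :=
  ∏ j ∈ Finset.range k, fer (ell C j c)

theorem MM_succ (C : Set (ℕ → Bool)) (k : ℕ) (c : ℕ → Bool) :
    MM C (k + 1) c = MM C k c * fer (ell C k c) := Finset.prod_range_succ _ _

theorem MM_pos (C : Set (ℕ → Bool)) (k : ℕ) (c : ℕ → Bool) : 0 < MM C k c :=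
  Finset.prod_pos fun _ _ => fer_pos _

theorem MM_dvd (C : Set (ℕ → Bool)) {i k : ℕ} (h : i ≤ k) (c : ℕ → Bool) : MM C i c ∣ MM C k c :=
  Finset.prod_dvd_prod_of_subset _ _ _ (Finset.range_subset_range.2 h)

theorem odd_MM (C : Set (ℕ → Bool)) (k : ℕ) (c : ℕ → Bool) : Odd (MM C k c) := by
  induction k with
  | zero => simp [MM]
  | succ k ih => rw [MM_succ]; exact ih.mul (odd_fer _)

theorem MM_coprime (C : Set (ℕ → Bool)) (k : ℕ) (c : ℕ → Bool) {l : ℕ}
    (h : ∀ j < k, l ≠ ell C j c) : Nat.Coprime (fer l) (MM C k c) := by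
  refine Nat.Coprime.prod_right fun j hj => fer_coprime (h j (Finset.mem_range.1 hj))

theorem ell_congr {C : Set (ℕ → Bool)} {n : ℕ} {c d : ℕ → Bool} (h : ∀ k < n, c k = d k) :
    ell C n c = ell C n d := by
  unfold ell
  rw [sc_eq_iff.2 ⟨rfl, h⟩]

theorem MM_congr {C : Set (ℕ → Bool)} {n : ℕ} {c d : ℕ → Bool} (h : ∀ k < n, c k = d k) :
    MM C n c = MM C n d := by
  refine Finset.prod_congr rfl fun j hj => ?_
  rw [ell_congr fun k hk => h k (hk.trans (Finset.mem_range.1 hj))]

/-- the ambient space -/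
abbrev Amb : Type := (ℕ → Bool) × (ℕ → Circ)

/-- the space, as a subset of the ambient space -/
def XS (C : Set (ℕ → Bool)) : Set Amb :=
  {x | x.1 ∈ C ∧ ∀ k, fer (ell C k x.1) • x.2 (k + 1) = x.2 k}

theorem continuous_ell (C : Set (ℕ → Bool)) (k : ℕ) : Continuous (ell C k) :=
  (continuous_of_discreteTopology
    (f := fun i : ℕ => (Encodable.encode (i, SL C k) : ℕ))).comp (continuous_sc k)

theorem isClosed_XS {C : Set (ℕ → Bool)} (hC : IsClosed C) : IsClosed (XS C) := by
  have h : XS C = (Prod.fst ⁻¹' C) ∩ ⋂ k, {x : Amb | fer (ell C k x.1) • x.2 (k + 1) = x.2 k} := by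
    ext x
    simp [XS]
  rw [h]
  refine (hC.preimage continuous_fst).inter (isClosed_iInter fun k => isClosed_eq ?_ ?_)
  · have h1 : Continuous (fun x : Amb => fer (ell C k x.1)) :=
      (continuous_of_discreteTopology (f := fer)).comp ((continuous_ell C k).comp continuous_fst)
    have hs : Continuous (fun q : ℕ × Circ => q.1 • q.2) :=
      (AddMonoid.continuousSMul_nat (A := Circ)).1
    exact hs.comp (h1.prodMk ((continuous_apply (k + 1)).comp continuous_snd))
  · exact (continuous_apply k).comp continuous_snd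

theorem compactSpace_XS {C : Set (ℕ → Bool)} (hC : IsClosed C) : CompactSpace (XS C) :=
  isCompact_iff_compactSpace.1 (isClosed_XS hC).isCompact

theorem XS_mul {C : Set (ℕ → Bool)} {x : Amb} (hx : x ∈ XS C) (k : ℕ) :
    MM C k x.1 • x.2 k = x.2 0 := by
  induction k with
  | zero => simp [MM]
  | succ k ih => rw [MM_succ, mul_smul, hx.2 k, ih]

theorem XS_mul' {C : Set (ℕ → Bool)} {x : Amb} (hx : x ∈ XS C) {i k : ℕ} (h : i ≤ k) :
    (MM C k x.1 / MM C i x.1) • x.2 k = x.2 i := by
  induction h with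
  | refl => rw [Nat.div_self (MM_pos C i x.1), one_smul]
  | @step k hk ih =>
    rw [MM_succ, Nat.mul_comm, Nat.mul_div_assoc _ (MM_dvd C hk x.1), Nat.mul_comm, mul_smul,
      hx.2 k, ih]

/-- the path in the fibre over `c` -/
noncomputable def ypt (C : Set (ℕ → Bool)) (c : ℕ → Bool) (t : ℝ) : Amb :=
  (c, fun k => ((t / (MM C k c : ℝ) : ℝ) : Circ))

theorem ypt_mem {C : Set (ℕ → Bool)} {c : ℕ → Bool} (hc : c ∈ C) (t : ℝ) : ypt C c t ∈ XS C := by
  refine ⟨hc, fun k => ?_⟩
  change fer (ell C k c) • ((t / (MM C (k + 1) c : ℝ) : ℝ) : Circ) = ((t / (MM C k c : ℝ) : ℝ) : Circ)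
  rw [← AddCircle.coe_nsmul, MM_succ, nsmul_eq_mul]
  congr 1
  have h1 : (MM C k c : ℝ) ≠ 0 := by exact_mod_cast (MM_pos C k c).ne'
  have h2 : (fer (ell C k c) : ℝ) ≠ 0 := by exact_mod_cast (fer_pos _).ne'
  push_cast
  field_simp

/-- the path as a map to the space -/
noncomputable def yp {C : Set (ℕ → Bool)} {c : ℕ → Bool} (hc : c ∈ C) (t : ℝ) : XS C :=
  ⟨ypt C c t, ypt_mem hc t⟩

theorem continuous_yp {C : Set (ℕ → Bool)} {c : ℕ → Bool} (hc : c ∈ C) : Continuous (yp hc) := by
  refine Continuous.subtype_mk ?_ _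
  unfold ypt
  refine continuous_const.prodMk (continuous_pi fun k => ?_)
  exact (AddCircle.continuous_mk' (1 : ℝ)).comp (continuous_id.div_const _)

/-- the circle-valued map -/
def thS (C : Set (ℕ → Bool)) (x : XS C) : Circ := x.1.2 0

theorem continuous_thS (C : Set (ℕ → Bool)) : Continuous (thS C) :=
  (continuous_apply 0).comp (continuous_snd.comp continuous_subtype_val)

theorem thS_yp {C : Set (ℕ → Bool)} {c : ℕ → Bool} (hc : c ∈ C) (t : ℝ) :
    thS C (yp hc t) = (t : Circ) := by
  change ((t / (MM C 0 c : ℝ) : ℝ) : Circ) = (t : Circ)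
  simp [MM]

/-- paths whose coordinates are eventually the ones of a point of the fibre -/
theorem tendsto_of_eventually {C : Set (ℕ → Bool)} {c : ℕ → Bool} (hc : c ∈ C) (u : ℕ → ℝ)
    (x : XS C) (hx : x.1.1 = c)
    (h : ∀ i k, i ≤ k → ((u k / (MM C i c : ℝ) : ℝ) : Circ) = x.1.2 i) :
    Tendsto (fun k => yp hc (u k)) atTop (𝓝 x) := by
  rw [tendsto_subtype_rng]
  have h1 : Tendsto (fun k => (yp hc (u k)).1) atTop (𝓝 (x.1.1, x.1.2)) := by
    refine Tendsto.prodMk_nhds ?_ ?_
    · rw [hx]; exact tendsto_const_nhds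
    · rw [tendsto_pi_nhds]
      intro i
      refine tendsto_const_nhds.congr' ?_
      filter_upwards [eventually_ge_atTop i] with k hk
      exact (h i k hk).symm
  exact h1

theorem tendsto_yp {C : Set (ℕ → Bool)} {c : ℕ → Bool} (hc : c ∈ C) :
    Tendsto (fun k => yp hc (MM C k c : ℝ)) atTop (𝓝 (yp hc 0)) := by
  refine tendsto_of_eventually hc _ _ rfl fun i k hk => ?_
  change _ = ((0 / (MM C i c : ℝ) : ℝ) : Circ)
  rw [zero_div, AddCircle.coe_zero]
  obtain ⟨q, hq⟩ := MM_dvd C hk c
  have h1 : (MM C i c : ℝ) ≠ 0 := by exact_mod_cast (MM_pos C i c).ne'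
  have h2 : (MM C k c : ℝ) / (MM C i c : ℝ) = q • (1 : ℝ) := by
    rw [hq]; push_cast; field_simp; simp
  rw [h2, AddCircle.coe_nsmul, AddCircle.coe_period, smul_zero]

/-- the fibre over `c` is in the closure of the path -/
theorem mem_closure_yp {C : Set (ℕ → Bool)} {c : ℕ → Bool} (hc : c ∈ C) (x : XS C)
    (hx : x.1.1 = c) : x ∈ closure (range (yp hc)) := by
  choose r hr using fun k => QuotientAddGroup.mk_surjective (x.1.2 k)
  refine mem_closure_of_tendsto (tendsto_of_eventually hc (fun k => MM C k c * r k) x hx ?_)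
    (Eventually.of_forall fun k => mem_range_self _)
  intro i k hik
  have h1 : (MM C i c : ℝ) ≠ 0 := by exact_mod_cast (MM_pos C i c).ne'
  have h2 : (MM C k c : ℝ) * r k / (MM C i c : ℝ) = (MM C k c / MM C i c) • r k := by
    rw [nsmul_eq_mul, Nat.cast_div (MM_dvd C hik c) h1]
    ring
  rw [h2, AddCircle.coe_nsmul]
  have h3 := XS_mul' x.2 hik
  rw [hx] at h3
  rw [← h3]
  congr 1
  exact hr k

theorem isPreconnected_fibre {C : Set (ℕ → Bool)} {c : ℕ → Bool} (hc : c ∈ C) :
    IsPreconnected {x : XS C | x.1.1 = c} := by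
  have h : IsPreconnected (range (yp hc)) := isPreconnected_range (continuous_yp hc)
  refine h.subset_closure ?_ fun x hx => mem_closure_yp hc x hx
  rintro _ ⟨t, rfl⟩
  rfl

/-- the projection -/
def prj (C : Set (ℕ → Bool)) (x : XS C) : C := ⟨x.1.1, x.2.1⟩

theorem continuous_prj (C : Set (ℕ → Bool)) : Continuous (prj C) :=
  Continuous.subtype_mk (continuous_fst.comp continuous_subtype_val) _

/-- the components are the fibres -/
theorem components {C : Set (ℕ → Bool)} (hC : IsClosed C) :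
    Nonempty (ConnectedComponents (XS C) ≃ₜ C) := by
  have := compactSpace_XS hC
  let f : ConnectedComponents (XS C) → C := (continuous_prj C).connectedComponentsLift
  have hf : Continuous f := (continuous_prj C).connectedComponentsLift_continuous
  have hinj : Function.Injective f := by
    intro a b hab
    obtain ⟨x, rfl⟩ := ConnectedComponents.surjective_coe a
    obtain ⟨y, rfl⟩ := ConnectedComponents.surjective_coe b
    have h1 : prj C x = prj C y := hab
    have h2 : x.1.1 = y.1.1 := congrArg Subtype.val h1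
    rw [ConnectedComponents.coe_eq_coe']
    exact (isPreconnected_fibre y.2.1).subset_connectedComponent (x := y) rfl h2
  have hsurj : Function.Surjective f := by
    intro c
    exact ⟨ConnectedComponents.mk (yp c.2 0), Subtype.ext rfl⟩
  exact ⟨Continuous.homeoOfEquivCompactToT2 (f := Equiv.ofBijective f ⟨hinj, hsurj⟩) hf⟩

end Pool.Agent.KS6_47.SCT
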