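import Pool.Agent.KS6_47.SCT.Prim
import Pool.Agent.KS6_47.SCT.Box
import Pool.Agent.KS6_47.SCT.Space
import Pool.Agent.KS6_47.SCT.Sound
import Pool.Agent.KS6_47.SCT.Complete

set_option autoImplicit false

/-!
# The space over `C` has strong computable type
-/

open Set Topology Filter

namespace Pool.Agent.KS6_47.SCT

/-- small neighbourhoods: the points with the same first `m` digits and the same `m`-th
coordinate -/
theorem exists_level {C : Set (ℕ → Bool)} (hC : IsClosed C) (x : XS C) {B : Set (XS C)}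
    (hB : IsOpen B) (hx : x ∈ B) :
    ∃ m, ∀ x' : XS C, (∀ k < m, x'.1.1 k = x.1.1 k) → x'.1.2 m = x.1.2 m → x' ∈ B := by
  have := compactSpace_XS hC
  let D : ℕ → Set (XS C) := fun m => {x' | (∀ k < m, x'.1.1 k = x.1.1 k) ∧ x'.1.2 m = x.1.2 m}
  have hcont1 : ∀ k, Continuous fun x' : XS C => x'.1.1 k := fun k =>
    (continuous_apply k).comp (continuous_fst.comp continuous_subtype_val)
  have hcont2 : ∀ k, Continuous fun x' : XS C => x'.1.2 k := fun k =>
    (continuous_apply k).comp (continuous_snd.comp continuous_subtype_val)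
  have hD : ∀ m, IsClosed (D m) := by
    intro m
    have h : D m = (⋂ k ∈ Finset.range m, {x' : XS C | x'.1.1 k = x.1.1 k}) ∩
        {x' : XS C | x'.1.2 m = x.1.2 m} := by
      ext x'
      simp [D]
    rw [h]
    refine (isClosed_biInter fun k _ => isClosed_eq (hcont1 k) continuous_const).inter
      (isClosed_eq (hcont2 m) continuous_const)
  have hanti : Antitone D := by
    intro i k hik x' hx'
    refine ⟨fun j hj => hx'.1 j (lt_of_lt_of_le hj hik), ?_⟩
    have h1 := XS_mul' x'.2 hik
    have h2 := XS_mul' x.2 hik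
    rw [MM_congr (C := C) (n := k) hx'.1,
      MM_congr (C := C) (n := i) fun j hj => hx'.1 j (lt_of_lt_of_le hj hik), hx'.2] at h1
    rw [← h1, h2]
  obtain ⟨m, hm⟩ := exists_subset_nhds_of_compactSpace (V := D)
    (directed_of_isDirected_le fun i j h => hanti h) hD (U := B) (by
      intro x' hx'
      have hx2 : x' = x := by
        rw [mem_iInter] at hx'
        apply Subtype.ext
        refine Prod.ext (funext fun k => (hx' (k + 1)).1 k (Nat.lt_succ_self k)) ?_
        exact funext fun k => (hx' k).2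
      rw [hx2]
      exact hB.mem_nhds hx)
  exact ⟨m, fun x' h1 h2 => hm ⟨h1, h2⟩⟩

/-- the rooted pieces -/
theorem pieces {C : Set (ℕ → Bool)} (hC : IsClosed C) (x : XS C) {B : Set (XS C)}
    (hB : IsOpen B) (hx : x ∈ B) :
    ∃ (p : List ℕ × ℕ) (K : ℕ → Set (XS C)) (ρ : ℕ → XS C → Circ), p.2 ∈ p.1 ∧
      (∀ i ∈ p.1, IsClosed (K i)) ∧
      (∀ i ∈ p.1, ∀ j ∈ p.1, i ≠ j → Disjoint (K i) (K j)) ∧
      (∀ i ∈ p.1, ContinuousOn (ρ i) (K i)) ∧
      (∀ i ∈ p.1, ∀ x ∈ K i, ordS p i • ρ i x = thS C x) ∧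
      ∀ x, x ∉ B → ∃ i ∈ p.1, x ∈ K i := by
  classical
  obtain ⟨m, hm⟩ := exists_level hC x hB hx
  obtain ⟨r, hr⟩ : ∃ r : ℝ, (r : Circ) = x.1.2 m := QuotientAddGroup.mk_surjective _
  let σ : ℕ := sc m x.1.1
  let g : XS C → Circ := fun x' =>
    (((MM C m x.1.1 : ℝ) * ((AddCircle.equivIoc (1 : ℝ) r (x'.1.2 m)) : ℝ) / 2 : ℝ) : Circ)
  have hsc : Continuous fun x' : XS C => sc m x'.1.1 :=
    (continuous_sc m).comp (continuous_fst.comp continuous_subtype_val)
  have hcont2 : ∀ k, Continuous fun x' : XS C => x'.1.2 k := fun k =>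
    (continuous_apply k).comp (continuous_snd.comp continuous_subtype_val)
  have hMM : Continuous fun x' : XS C => MM C m x'.1.1 := by
    unfold MM
    refine continuous_finsetProd _ fun j _ => ?_
    exact (continuous_of_discreteTopology (f := fer)).comp ((continuous_ell C j).comp
      (continuous_fst.comp continuous_subtype_val))
  have hs : Continuous (fun q : ℕ × Circ => q.1 • q.2) :=
    (AddMonoid.continuousSMul_nat (A := Circ)).1
  refine ⟨(SL C m, σ), fun i => {x' | sc m x'.1.1 = i ∧ (i = σ → x' ∉ B)},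
    fun i x' => if i = σ then g x' else MM C m x'.1.1 • x'.1.2 (m + 1),
    mem_SL.2 ⟨x.1.1, x.2.1, rfl⟩, ?_, ?_, ?_, ?_, ?_⟩
  · intro i _
    by_cases hi : i = σ
    · have h : {x' : XS C | sc m x'.1.1 = i ∧ (i = σ → x' ∉ B)} =
          {x' : XS C | sc m x'.1.1 = i} ∩ Bᶜ := by
        ext x'
        simp [hi]
      change IsClosed {x' : XS C | sc m x'.1.1 = i ∧ (i = σ → x' ∉ B)}
      rw [h]
      exact (isClosed_eq hsc continuous_const).inter hB.isClosed_compl
    · have h : {x' : XS C | sc m x'.1.1 = i ∧ (i = σ → x' ∉ B)} =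
          {x' : XS C | sc m x'.1.1 = i} := by
        ext x'
        simp [hi]
      change IsClosed {x' : XS C | sc m x'.1.1 = i ∧ (i = σ → x' ∉ B)}
      rw [h]
      exact isClosed_eq hsc continuous_const
  · intro i _ j _ hij
    rw [Set.disjoint_left]
    rintro x' ⟨h1, _⟩ ⟨h2, _⟩
    exact hij (h1.symm.trans h2)
  · intro i _
    by_cases hi : i = σ
    · simp only [hi, if_true]
      intro x' hx'
      refine ContinuousAt.continuousWithinAt ?_
      obtain ⟨h1, h2⟩ := hx'
      have hne : x'.1.2 m ≠ (r : Circ) := by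
        intro h
        refine h2 trivial (hm x' ?_ (h.trans hr))
        exact (sc_eq_iff.1 h1).2
      have c1 : ContinuousAt (AddCircle.equivIoc (1 : ℝ) r) (x'.1.2 m) :=
        AddCircle.continuousAt_equivIoc _ _ hne
      have c2 : ContinuousAt (fun x' : XS C => AddCircle.equivIoc (1 : ℝ) r (x'.1.2 m)) x' :=
        ContinuousAt.comp (f := fun x' : XS C => x'.1.2 m) c1 (hcont2 m).continuousAt
      have c3 : ContinuousAt (fun x' : XS C => ((AddCircle.equivIoc (1 : ℝ) r (x'.1.2 m)) : ℝ))
          x' := continuous_subtype_val.continuousAt.comp c2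
      have c4 : ContinuousAt (fun x' : XS C => (MM C m x.1.1 : ℝ) *
          ((AddCircle.equivIoc (1 : ℝ) r (x'.1.2 m)) : ℝ) / 2) x' :=
        (c3.const_mul _).div_const _
      exact (AddCircle.continuous_mk' (1 : ℝ)).continuousAt.comp c4
    · simp only [hi, if_false]
      exact (hs.comp (hMM.prodMk (hcont2 (m + 1)))).continuousOn
  · intro i _ x' hx'
    obtain ⟨h1, h2⟩ := hx'
    by_cases hi : i = σ
    · have h3 := (sc_eq_iff.1 (h1.trans hi)).2
      simp only [hi, if_true]
      have ho : ordS (SL C m, σ) σ = 2 := by simp [ordS]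
      rw [ho]
      change 2 • ((((MM C m x.1.1 : ℝ) *
        ((AddCircle.equivIoc (1 : ℝ) r (x'.1.2 m)) : ℝ) / 2 : ℝ)) : Circ) = x'.1.2 0
      rw [← AddCircle.coe_nsmul]
      have h4 : (2 : ℕ) • ((MM C m x.1.1 : ℝ) *
          ((AddCircle.equivIoc (1 : ℝ) r (x'.1.2 m)) : ℝ) / 2) =
          MM C m x.1.1 • ((AddCircle.equivIoc (1 : ℝ) r (x'.1.2 m)) : ℝ) := by
        rw [nsmul_eq_mul, nsmul_eq_mul]
        push_cast
        ring
      rw [h4, AddCircle.coe_nsmul, AddCircle.coe_equivIoc, ← MM_congr (C := C) h3]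
      exact XS_mul x'.2 m
    · simp only [hi, if_false]
      have ho : ordS (SL C m, σ) i = fer (ell C m x'.1.1) := by
        unfold ordS fer ell
        simp only [hi, if_false, h1]
      rw [ho, ← mul_smul, mul_comm, mul_smul, x'.2.2 m]
      exact XS_mul x'.2 m
  · intro x' hx'
    exact ⟨sc m x'.1.1, mem_SL.2 ⟨x'.1.1, x'.2.1, rfl⟩, rfl, fun _ => hx'⟩

/-- no certificate covers the whole space -/
theorem sound {C : Set (ℕ → Bool)} (hne : C.Nonempty) (J : XS C → HilbertCube)
    (hJ : Continuous J) (N : ℕ → List BoxCode)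
    (hN : ∀ a < 3, ∀ x, thS C x ∉ Varc a → ∃ w ∈ N a, J x ∈ box w)
    (p : List ℕ × ℕ) (L : List ((ℕ × ℕ × ℕ) × BoxCode)) (hL : Cert N p L) :
    ¬ ∀ x, ∃ e ∈ L, J x ∈ box e.2 := by
  intro hcov
  obtain ⟨hp, hL1, hL2⟩ := hL
  -- the piece of `c`
  have key : ∀ c ∈ C, ∃ j, sc j c ≠ p.2 ∧ p.1 = SL C j := by
    intro c hc
    obtain ⟨e, he, k, hk⟩ := sound_path (thS C) J hJ N hN L (fun e he => (hL1 e he).2) hL2 hcov
      (yp hc) (continuous_yp hc) (thS_yp hc) (fun k => MM C k c) (tendsto_yp hc)
    have h1 : e.1.1 ≠ p.2 := by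
      intro h
      rw [h] at hk
      have h2 : ordS p p.2 = 2 := by simp [ordS]
      rw [h2] at hk
      have := odd_MM C k c
      rw [← Nat.not_even_iff_odd] at this
      exact this (even_iff_two_dvd.2 hk)
    have h3 : ordS p e.1.1 = fer (Encodable.encode (e.1.1, p.1)) := by
      unfold ordS fer
      rw [if_neg h1]
    rw [h3] at hk
    by_contra hcon
    push Not at hcon
    have h4 : Nat.Coprime (fer (Encodable.encode (e.1.1, p.1))) (MM C k c) := by
      refine MM_coprime C k c fun j _ h => ?_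
      unfold ell at h
      rw [Encodable.encode_inj, Prod.mk.injEq] at h
      exact hcon j (by rw [← h.1]; exact h1) h.2
    have h5 := Nat.Coprime.eq_one_of_dvd h4 hk
    have := three_le_fer (Encodable.encode (e.1.1, p.1))
    omega
  obtain ⟨c, hc⟩ := hne
  obtain ⟨j, -, hj⟩ := key c hc
  rw [hj] at hp
  obtain ⟨c', hc', hc2⟩ := mem_SL.1 hp
  obtain ⟨j', h1, h2⟩ := key c' hc'
  have h3 : sc j' c' ∈ SL C j := by
    rw [← hj, h2]
    exact mem_SL.2 ⟨c', hc', rfl⟩
  obtain ⟨c'', -, h4⟩ := mem_SL.1 h3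
  have h5 := (sc_eq_iff.1 h4).1
  subst h5
  exact h1 hc2

theorem sct_XS {C : Set (ℕ → Bool)} (hC : IsClosed C) (hne : C.Nonempty) :
    StrongComputableType (XS C) := by
  have := compactSpace_XS hC
  rintro O Y ⟨j⟩ hY
  refine ⟨hY, ?_⟩
  set J : XS C → HilbertCube := fun x => (j x : HilbertCube) with hJdef
  have hJ : Continuous J := continuous_subtype_val.comp j.continuous
  have hJi : Function.Injective J := Subtype.val_injective.comp j.injective
  have hJY : ∀ x, J x ∈ Y := fun x => (j x).2
  have hYJ : ∀ y ∈ Y, ∃ x, J x = y := by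
    intro y hy
    obtain ⟨x, hx⟩ := j.surjective ⟨y, hy⟩
    exact ⟨x, by rw [hJdef]; simp only [hx]⟩
  obtain ⟨N, N₀, hN, hN₀⟩ := advice (thS C) (continuous_thS C) J hJ hJi
  have hset : {v : BoxCode | ∃ y ∈ Y, y ∈ box v} =
      {b : BoxCode | ∃ c : (List ℕ × ℕ) × List LBox, Cert N c.1 c.2 ∧
        ∀ y ∈ Y, ∃ v ∈ b :: c.2.map Prod.snd, y ∈ box v} := by
    ext b
    constructor
    · rintro ⟨y, hy, hyb⟩
      obtain ⟨x, rfl⟩ := hYJ y hy
      have hB : IsOpen (J ⁻¹' box b) := (isOpen_box b).preimage hJ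
      obtain ⟨p, K, ρ, hp, hK, hdis, hρ, hroot, hcov⟩ := pieces hC x hB hyb
      obtain ⟨L, hL, hLc⟩ := complete (thS C) (continuous_thS C) J hJ hJi N N₀ hN₀ p hp K ρ hK
        hdis hρ hroot
      refine ⟨(p, L), hL, ?_⟩
      intro y hy
      obtain ⟨x', rfl⟩ := hYJ y hy
      by_cases hx' : J x' ∈ box b
      · exact ⟨b, List.mem_cons_self, hx'⟩
      · obtain ⟨i, hi, hxi⟩ := hcov x' hx'
        obtain ⟨e, he, hxe⟩ := hLc i hi x' hxi
        exact ⟨e.2, List.mem_cons_of_mem _ (List.mem_map_of_mem he), hxe⟩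
    · rintro ⟨⟨p, L⟩, hL, hc⟩
      by_contra hno
      refine sound hne J hJ N hN p L hL ?_
      intro x
      obtain ⟨v, hv, hxv⟩ := hc (J x) (hJY x)
      rcases List.mem_cons.1 hv with rfl | hv
      · exact absurd ⟨J x, hJY x, hxv⟩ hno
      · obtain ⟨e, he, rfl⟩ := List.mem_map.1 hv
        exact ⟨e, he, hxv⟩
  rw [hset]
  exact CEIn.main hY N

/-- the empty space -/
theorem sct_empty : StrongComputableType Empty := by
  rintro O Y ⟨j⟩ hY
  refine ⟨hY, ?_⟩
  have hempty : Y = ∅ := by
    rw [Set.eq_empty_iff_forall_notMem]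
    intro y hy
    exact (j.symm ⟨y, hy⟩).elim
  have hset : {v : BoxCode | ∃ y ∈ Y, y ∈ box v} = ∅ := by
    rw [hempty]; simp
  rw [hset]
  refine ⟨fun _ => none, ?_, fun a => by simp⟩
  exact (Primrec.const (none : Option BoxCode)).computableIn

/-- a compact metrizable totally disconnected space is a closed subset of the Cantor space -/
theorem exists_closed (Z : Type) [TopologicalSpace Z] [CompactSpace Z]
    [TopologicalSpace.MetrizableSpace Z] [TotallyDisconnectedSpace Z] :
    ∃ C : Set (ℕ → Bool), IsClosed C ∧ Nonempty (Z ≃ₜ C) := by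
  classical
  have hT2 : T2Space Z := by
    let := TopologicalSpace.metrizableSpaceMetric Z
    infer_instance
  have hsc : SecondCountableTopology Z := by
    let := TopologicalSpace.metrizableSpaceMetric Z
    infer_instance
  have hct : Countable (TopologicalSpace.Clopens Z) :=
    TopologicalSpace.Clopens.countable_iff_secondCountable.2 hsc
  have hne : Nonempty (TopologicalSpace.Clopens Z) := ⟨⊤⟩
  obtain ⟨U, hU⟩ := exists_surjective_nat (TopologicalSpace.Clopens Z)
  let f : Z → ℕ → Bool := fun z n => decide (z ∈ (U n : Set Z))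
  have hf : Continuous f := by
    refine continuous_pi fun n => ?_
    rw [continuous_bool_rng true]
    have h : (fun z => decide (z ∈ (U n : Set Z))) ⁻¹' {true} = (U n : Set Z) := by
      ext z; simp
    rw [h]
    exact (U n).isClopen
  have hinj : Function.Injective f := by
    intro x y hxy
    by_contra hne
    have hts : TotallySeparatedSpace Z := inferInstance
    obtain ⟨V, hV, hx, hy⟩ := exists_isClopen_of_totally_separated (α := Z) hne
    obtain ⟨n, hn⟩ := hU ⟨V, hV⟩
    have h1 := congrFun hxy n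
    simp only [f, hn] at h1
    rw [decide_eq_decide] at h1
    exact hy (h1.1 hx)
  have hemb : IsClosedEmbedding f := hf.isClosedEmbedding hinj
  exact ⟨range f, hemb.isClosed_range, ⟨hemb.isEmbedding.toHomeomorph⟩⟩

/-- **Every compact metrizable totally disconnected space is the space of components of a compact
metrizable space of strong computable type.** -/
theorem main (Z : Type) [TopologicalSpace Z] [CompactSpace Z]
    [TopologicalSpace.MetrizableSpace Z] [TotallyDisconnectedSpace Z] :
    ∃ (X : Type) (_ : TopologicalSpace X), CompactSpace X ∧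
      TopologicalSpace.MetrizableSpace X ∧ StrongComputableType X ∧
      Nonempty (ConnectedComponents X ≃ₜ Z) := by
  obtain ⟨C, hC, ⟨h⟩⟩ := exists_closed Z
  rcases C.eq_empty_or_nonempty with hem | hne
  · refine ⟨Empty, inferInstance, inferInstance, inferInstance, sct_empty, ?_⟩
    subst hem
    have hZ : IsEmpty Z := ⟨fun z => (h z).2⟩
    have hc : IsEmpty (ConnectedComponents Empty) := ⟨fun c => by
      obtain ⟨x, -⟩ := ConnectedComponents.surjective_coe c
      exact x.elim⟩
    exact ⟨{ toFun := fun a => (hc.false a).elim, invFun := fun a => (hZ.false a).elim,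
              left_inv := fun a => (hc.false a).elim, right_inv := fun a => (hZ.false a).elim,
              continuous_toFun := continuous_of_const fun a => (hc.false a).elim,
              continuous_invFun := continuous_of_const fun a => (hZ.false a).elim }⟩
  · obtain ⟨g⟩ := components hC
    exact ⟨XS C, inferInstance, compactSpace_XS hC, inferInstance, sct_XS hC hne, ⟨g.trans h.symm⟩⟩

end Pool.Agent.KS6_47.SCT
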