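import Pool.Agent.KS6_47.SCT.Defs

set_option autoImplicit false

/-! Auxiliary notions (not used in the final statement); the first part is from the library. -/

open Set Topology

namespace Pool.Agent.KS6_47.SCT

/-- formal disjointness of two coded boxes: in some coordinate the intervals are disjoint -/
def FD (v w : BoxCode) : Prop :=
  ∃ n < v.length, n < w.length ∧
    ((v.getD n (0, 0, 0)).2.1 * ((w.getD n (0, 0, 0)).2.2 + 1) ≤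
        (w.getD n (0, 0, 0)).1 * ((v.getD n (0, 0, 0)).2.2 + 1) ∨
      (w.getD n (0, 0, 0)).2.1 * ((v.getD n (0, 0, 0)).2.2 + 1) ≤
        (v.getD n (0, 0, 0)).1 * ((w.getD n (0, 0, 0)).2.2 + 1))

/-- `N`-fine boxes -/
def Fine (N : ℕ) (v : BoxCode) : Prop :=
  N ≤ v.length ∧ ∀ n < N, hi v n - lo v n ≤ 1 / ((N : ℝ) + 1)

/-- the circle `ℝ/ℤ` -/
abbrev Circ : Type := AddCircle (1 : ℝ)

/-- the open arc `(a/3 - 1/12, (a+1)/3 + 1/12)` -/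
def Varc (a : ℕ) : Set Circ :=
  {z | ∃ x : ℝ, (x : Circ) = z ∧ (a : ℝ) / 3 - 1 / 12 < x ∧ x < ((a : ℝ) + 1) / 3 + 1 / 12}

/-- the closed arc `[a/3, (a+1)/3]` -/
def Warc (a : ℕ) : Set Circ :=
  {z | ∃ x : ℝ, (x : Circ) = z ∧ (a : ℝ) / 3 ≤ x ∧ x ≤ ((a : ℝ) + 1) / 3}

/-- compatibility of labels `(i, a, s)`, `(i', a', s')`; `ord i` is the order of the root on the
`i`-th piece -/
def Compat (ord : ℕ → ℕ) (e f : ℕ × ℕ × ℕ) : Prop :=
  e.1 = f.1 ∧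
    ((e.2.1 = 2 ∧ f.2.1 = 0 ∧ f.2.2 % ord e.1 = (e.2.2 + 1) % ord e.1) ∨
      (e.2.1 = 0 ∧ f.2.1 = 2 ∧ e.2.2 % ord e.1 = (f.2.2 + 1) % ord e.1) ∨
      (¬ (e.2.1 = 2 ∧ f.2.1 = 0) ∧ ¬ (e.2.1 = 0 ∧ f.2.1 = 2) ∧
        e.2.2 % ord e.1 = f.2.2 % ord e.1))

/-- order of the root on the `i`-th piece: `S` is the list of the pieces, `σ` the special one -/
def ordS (p : List ℕ × ℕ) (i : ℕ) : ℕ :=
  if i = p.2 then 2 else 2 ^ (2 ^ (Encodable.encode (i, p.1))) + 1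

/-- The certificates: `N a` is the advice, a list of boxes which covers the part of the space where
`θ` is outside of `Varc a`; the entries of `L` are pairs (label, box). -/
def Cert (N : ℕ → List BoxCode) (p : List ℕ × ℕ) (L : List ((ℕ × ℕ × ℕ) × BoxCode)) : Prop :=
  p.2 ∈ p.1 ∧ (∀ e ∈ L, e.1.1 ∈ p.1 ∧ e.1.2.1 < 3 ∧ ∀ w ∈ N e.1.2.1, FD e.2 w) ∧
    ∀ e ∈ L, ∀ f ∈ L, Compat (ordS p) e.1 f.1 ∨ FD e.2 f.2

end Pool.Agent.KS6_47.SCT
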