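import Pool.Agent.KS6_47.SCT.Notions
import Pool.Agent.KS6_47.SCT.Comp

set_option autoImplicit false

/-!
# The certificates are primitive recursive
-/

open Set Topology Encodable

namespace Pool.Agent.KS6_47.SCT

theorem primrec_natpow : Primrec₂ (fun a b : ℕ => a ^ b) := Primrec₂.unpaired'.1 Nat.Primrec.pow

theorem primrec_pow2' : Primrec (fun n : ℕ => 2 ^ n) :=
  primrec_natpow.comp (Primrec.const 2) Primrec.id

/-- one half of formal disjointness in coordinate `n` -/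
def Half (n : ℕ) (v w : BoxCode) : Prop :=
  (v.getD n (0, 0, 0)).2.1 * ((w.getD n (0, 0, 0)).2.2 + 1) ≤
    (w.getD n (0, 0, 0)).1 * ((v.getD n (0, 0, 0)).2.2 + 1)

theorem primrec_Half : PrimrecRel (fun (n : ℕ) (p : BoxCode × BoxCode) => Half n p.1 p.2) := by
  have h1 : Primrec (fun x : ℕ × (BoxCode × BoxCode) => x.2.1.getD x.1 (0, 0, 0)) :=
    (Primrec.list_getD _).comp (Primrec.fst.comp Primrec.snd) Primrec.fst
  have h2 : Primrec (fun x : ℕ × (BoxCode × BoxCode) => x.2.2.getD x.1 (0, 0, 0)) :=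
    (Primrec.list_getD _).comp (Primrec.snd.comp Primrec.snd) Primrec.fst
  have M := @Primrec.nat_mul
  exact Primrec.nat_le.comp
    (M.comp (Primrec.fst.comp (Primrec.snd.comp h1))
      (Primrec.succ.comp (Primrec.snd.comp (Primrec.snd.comp h2))))
    (M.comp (Primrec.fst.comp h2)
      (Primrec.succ.comp (Primrec.snd.comp (Primrec.snd.comp h1))))

theorem FD_iff (v w : BoxCode) :
    FD v w ↔ ∃ n < v.length, (n < w.length ∧ (Half n v w ∨ Half n w v)) := Iff.rfl

theorem primrec_FD : PrimrecRel (fun v w : BoxCode => FD v w) := by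
  have h : PrimrecRel (fun (n : ℕ) (p : BoxCode × BoxCode) =>
      n < p.2.length ∧ (Half n p.1 p.2 ∨ Half n p.2 p.1)) := by
    refine PrimrecPred.and ?_ (PrimrecPred.or primrec_Half ?_)
    · exact Primrec.nat_lt.comp Primrec.fst
        (Primrec.list_length.comp (Primrec.snd.comp Primrec.snd))
    · exact primrec_Half.comp Primrec.fst
        (Primrec.pair (Primrec.snd.comp Primrec.snd) (Primrec.fst.comp Primrec.snd))
  have h2 : PrimrecRel (fun (n : ℕ) (p : BoxCode × BoxCode) =>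
      ∃ x < n, (x < p.2.length ∧ (Half x p.1 p.2 ∨ Half x p.2 p.1))) :=
    (h.exists_mem_list.comp (Primrec.list_range.comp Primrec.fst) Primrec.snd).of_eq (by simp)
  exact h2.comp (Primrec.list_length.comp Primrec.fst) Primrec.id

theorem primrec_ordS : Primrec₂ (fun (p : List ℕ × ℕ) (i : ℕ) => ordS p i) := by
  have h0 : PrimrecPred (fun x : (List ℕ × ℕ) × ℕ => x.2 = x.1.2) :=
    Primrec.eq.comp Primrec.snd (Primrec.snd.comp Primrec.fst)
  have h2 : Primrec (fun x : (List ℕ × ℕ) × ℕ => 2 ^ (2 ^ (encode (x.2, x.1.1))) + 1) :=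
    Primrec.succ.comp (primrec_pow2'.comp (primrec_pow2'.comp (Primrec.encode.comp
      (Primrec.snd.pair (Primrec.fst.comp Primrec.fst)))))
  exact Primrec.ite h0 (Primrec.const 2) h2

theorem primrec_Compat : PrimrecPred (fun x : (List ℕ × ℕ) × ((ℕ × ℕ × ℕ) × (ℕ × ℕ × ℕ)) =>
    Compat (ordS x.1) x.2.1 x.2.2) := by
  let T := (List ℕ × ℕ) × ((ℕ × ℕ × ℕ) × (ℕ × ℕ × ℕ))
  have he : Primrec (fun x : T => x.2.1) := Primrec.fst.comp Primrec.snd
  have hf : Primrec (fun x : T => x.2.2) := Primrec.snd.comp Primrec.snd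
  have he1 : Primrec (fun x : T => x.2.1.1) := Primrec.fst.comp he
  have hf1 : Primrec (fun x : T => x.2.2.1) := Primrec.fst.comp hf
  have he2 : Primrec (fun x : T => x.2.1.2.1) := Primrec.fst.comp (Primrec.snd.comp he)
  have hf2 : Primrec (fun x : T => x.2.2.2.1) := Primrec.fst.comp (Primrec.snd.comp hf)
  have he3 : Primrec (fun x : T => x.2.1.2.2) := Primrec.snd.comp (Primrec.snd.comp he)
  have hf3 : Primrec (fun x : T => x.2.2.2.2) := Primrec.snd.comp (Primrec.snd.comp hf)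
  have ho : Primrec (fun x : T => ordS x.1 x.2.1.1) := primrec_ordS.comp Primrec.fst he1
  have hA : PrimrecPred (fun x : T => x.2.1.2.1 = 2) := Primrec.eq.comp he2 (Primrec.const 2)
  have hB : PrimrecPred (fun x : T => x.2.2.2.1 = 0) := Primrec.eq.comp hf2 (Primrec.const 0)
  have hC : PrimrecPred (fun x : T => x.2.1.2.1 = 0) := Primrec.eq.comp he2 (Primrec.const 0)
  have hD : PrimrecPred (fun x : T => x.2.2.2.1 = 2) := Primrec.eq.comp hf2 (Primrec.const 2)
  have hE : PrimrecPred (fun x : T => x.2.2.2.2 % ordS x.1 x.2.1.1 = (x.2.1.2.2 + 1) % ordS x.1 x.2.1.1) :=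
    Primrec.eq.comp (Primrec.nat_mod.comp hf3 ho) (Primrec.nat_mod.comp (Primrec.succ.comp he3) ho)
  have hF : PrimrecPred (fun x : T => x.2.1.2.2 % ordS x.1 x.2.1.1 = (x.2.2.2.2 + 1) % ordS x.1 x.2.1.1) :=
    Primrec.eq.comp (Primrec.nat_mod.comp he3 ho) (Primrec.nat_mod.comp (Primrec.succ.comp hf3) ho)
  have hG : PrimrecPred (fun x : T => x.2.1.2.2 % ordS x.1 x.2.1.1 = x.2.2.2.2 % ordS x.1 x.2.1.1) :=
    Primrec.eq.comp (Primrec.nat_mod.comp he3 ho) (Primrec.nat_mod.comp hf3 ho)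
  have h11 : PrimrecPred (fun x : T => x.2.1.1 = x.2.2.1) := Primrec.eq.comp he1 hf1
  exact h11.and ((hA.and (hB.and hE)).or ((hC.and (hD.and hF)).or
    ((hA.and hB).not.and ((hC.and hD).not.and hG))))

/-- labelled boxes -/
abbrev LBox : Type := (ℕ × ℕ × ℕ) × BoxCode

theorem primrec_advice (N : ℕ → List BoxCode) :
    PrimrecPred (fun e : LBox => e.1.2.1 < 3 ∧ ∀ w ∈ N e.1.2.1, FD e.2 w) := by
  have key : ∀ W : List BoxCode, PrimrecPred (fun e : LBox => ∀ w ∈ W, FD e.2 w) := by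
    intro W
    have h1 : PrimrecRel (fun (L : List BoxCode) (v : BoxCode) => ∀ w ∈ L, FD v w) :=
      (primrec_FD.swap).forall_mem_list
    exact h1.comp (Primrec.const W) Primrec.snd
  have ha : Primrec (fun e : LBox => e.1.2.1) := Primrec.fst.comp (Primrec.snd.comp Primrec.fst)
  have hc : ∀ a : ℕ, PrimrecPred (fun e : LBox => e.1.2.1 = a ∧ ∀ w ∈ N a, FD e.2 w) :=
    fun a => (Primrec.eq.comp ha (Primrec.const a)).and (key (N a))
  refine ((hc 0).or ((hc 1).or (hc 2))).of_eq ?_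
  intro e
  constructor
  · rintro (⟨h, h'⟩ | ⟨h, h'⟩ | ⟨h, h'⟩)
    · rw [h]; exact ⟨by norm_num, h'⟩
    · rw [h]; exact ⟨by norm_num, h'⟩
    · rw [h]; exact ⟨by norm_num, h'⟩
  · rintro ⟨h, h'⟩
    have : e.1.2.1 = 0 ∨ e.1.2.1 = 1 ∨ e.1.2.1 = 2 := by omega
    rcases this with h0 | h0 | h0
    · exact Or.inl ⟨h0, by rw [h0] at h'; exact h'⟩
    · exact Or.inr (Or.inl ⟨h0, by rw [h0] at h'; exact h'⟩)
    · exact Or.inr (Or.inr ⟨h0, by rw [h0] at h'; exact h'⟩)

theorem primrec_Cert (N : ℕ → List BoxCode) :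
    PrimrecRel (fun (p : List ℕ × ℕ) (L : List LBox) => Cert N p L) := by
  have hmem : PrimrecRel (fun (S : List ℕ) (i : ℕ) => i ∈ S) := by
    have h : PrimrecRel (fun (a i : ℕ) => a = i) := Primrec.eq
    exact h.exists_mem_list.of_eq (by simp)
  have h0 : PrimrecPred (fun p : List ℕ × ℕ => p.2 ∈ p.1) := hmem.comp Primrec.fst Primrec.snd
  -- first part
  have h1 : PrimrecRel (fun (e : LBox) (p : List ℕ × ℕ) =>
      e.1.1 ∈ p.1 ∧ e.1.2.1 < 3 ∧ ∀ w ∈ N e.1.2.1, FD e.2 w) := by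
    refine PrimrecPred.and ?_ ((primrec_advice N).comp Primrec.fst)
    exact hmem.comp (Primrec.fst.comp Primrec.snd) (Primrec.fst.comp (Primrec.fst.comp Primrec.fst))
  have h1' : PrimrecRel (fun (L : List LBox) (p : List ℕ × ℕ) => ∀ e ∈ L,
      e.1.1 ∈ p.1 ∧ e.1.2.1 < 3 ∧ ∀ w ∈ N e.1.2.1, FD e.2 w) := h1.forall_mem_list
  have h2 : PrimrecRel (fun (f : LBox) (p : (List ℕ × ℕ) × LBox) =>
      Compat (ordS p.1) p.2.1 f.1 ∨ FD p.2.2 f.2) := by
    refine PrimrecPred.or ?_ ?_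
    · exact primrec_Compat.comp (Primrec.pair (Primrec.fst.comp Primrec.snd)
        (Primrec.pair (Primrec.fst.comp (Primrec.snd.comp Primrec.snd))
          (Primrec.fst.comp Primrec.fst)))
    · exact primrec_FD.comp (Primrec.snd.comp (Primrec.snd.comp Primrec.snd))
        (Primrec.snd.comp Primrec.fst)
  have h3 : PrimrecRel (fun (L : List LBox) (p : (List ℕ × ℕ) × LBox) =>
      ∀ f ∈ L, Compat (ordS p.1) p.2.1 f.1 ∨ FD p.2.2 f.2) := h2.forall_mem_list
  have h4 : PrimrecRel (fun (e : LBox) (p : (List ℕ × ℕ) × List LBox) =>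
      ∀ f ∈ p.2, Compat (ordS p.1) e.1 f.1 ∨ FD e.2 f.2) :=
    h3.comp (Primrec.snd.comp Primrec.snd)
      (Primrec.pair (Primrec.fst.comp Primrec.snd) Primrec.fst)
  have h5 : PrimrecRel (fun (L : List LBox) (p : (List ℕ × ℕ) × List LBox) =>
      ∀ e ∈ L, ∀ f ∈ p.2, Compat (ordS p.1) e.1 f.1 ∨ FD e.2 f.2) := h4.forall_mem_list
  exact PrimrecPred.and (h0.comp Primrec.fst) (PrimrecPred.and (h1'.comp Primrec.snd Primrec.fst)
    (h5.comp Primrec.snd (Primrec.pair Primrec.fst Primrec.snd)))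

/-- The c.e. set used in the main argument. -/
theorem CEIn.main {O : Set ℕ} {Y : Set HilbertCube} (hY : SemicomputableIn O Y)
    (N : ℕ → List BoxCode) :
    CEIn O {b : BoxCode | ∃ c : (List ℕ × ℕ) × List LBox, Cert N c.1 c.2 ∧
      ∀ y ∈ Y, ∃ v ∈ b :: c.2.map Prod.snd, y ∈ box v} := by
  have hR : PrimrecPred (fun x : BoxCode × ((List ℕ × ℕ) × List LBox) => Cert N x.2.1 x.2.2) :=
    (primrec_Cert N).comp (Primrec.fst.comp Primrec.snd) (Primrec.snd.comp Primrec.snd)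
  have hF : Primrec (fun x : BoxCode × ((List ℕ × ℕ) × List LBox) =>
      x.1 :: x.2.2.map Prod.snd) := by
    refine Primrec.list_cons.comp Primrec.fst ?_
    exact Primrec.list_map (Primrec.snd.comp Primrec.snd) (Primrec.snd.comp Primrec.snd)
  exact CEIn.of_rel hY hR hF

end Pool.Agent.KS6_47.SCT
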